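import Mathlib

namespace Pool.Agent.Results.MP_d015b4_co.FiniteCounterexample

/-- `K` is a cutset: it meets every maximal chain. -/
def IsCutset {P : Type*} [PartialOrder P] (K : Set P) : Prop :=
  ∀ C : Set P, IsMaxChain (· ≤ ·) C → (K ∩ C).Nonempty

/-- `K` is a cutset for `x`: every element of `K` is incomparable to `x`, and
`K` together with `x` meets every maximal chain. -/
def IsCutsetFor {P : Type*} [PartialOrder P] (x : P) (K : Set P) : Prop :=
  (∀ y ∈ K, ¬ x ≤ y ∧ ¬ y ≤ x) ∧ IsCutset (insert x K)

/-! ### The search procedure for antichains dominating a list -/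

/-- comparability of two finite sets coded as bitmasks -/
def cm (a b : ℕ) : Bool := (Nat.land a b == a) || (Nat.land a b == b)

/-- pairs `(b, W)`: `b` runs through the candidates, and `W` is `V` without the
candidates that were listed before `b` -/
def splits : List ℕ → List ℕ → List (ℕ × List ℕ)
  | [], _ => []
  | b :: bs, V => (b, V) :: splits bs (V.filter (fun w => !(w == b)))

/-- returns `true` only if no antichain with exactly `k` elements, taken from `V`,
meets the comparability neighbourhood of every element of `U` -/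
def search : ℕ → List ℕ → List ℕ → ℕ → Bool
  | 0, _, _, _ => false
  | _ + 1, [], V, k => !(k == 0) && V.isEmpty
  | f + 1, u :: U, V, k =>
      (k == 0) ||
        (splits (V.filter (fun b => cm u b)) V).all (fun p =>
          search f ((u :: U).filter (fun w => !(cm w p.1)))
            (p.2.filter (fun w => !(cm w p.1))) (k - 1))

theorem splits_spec (B : Finset ℕ) : ∀ (cs V : List ℕ), (∀ b ∈ B, b ∈ V) →
    (∃ b ∈ cs, b ∈ B) → ∃ p ∈ splits cs V, p.1 ∈ B ∧ ∀ b ∈ B, b ∈ p.2 := by
  intro cs
  induction cs with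
  | nil => intro V _ h; simp at h
  | cons c cs ih =>
    intro V hV h
    by_cases hc : c ∈ B
    · exact ⟨(c, V), by simp [splits], hc, hV⟩
    · obtain ⟨b, hb, hbB⟩ := h
      have hb' : b ∈ cs := by
        rcases List.mem_cons.1 hb with h | h
        · exact absurd (h ▸ hbB) hc
        · exact h
      obtain ⟨p, hp, h1, h2⟩ := ih (V.filter (fun w => !(w == c)))
        (fun b hb => by
          refine List.mem_filter.2 ⟨hV b hb, ?_⟩
          have : b ≠ c := fun h => hc (h ▸ hb)
          simpa using this) ⟨b, hb', hbB⟩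
      exact ⟨p, by simp [splits, hp], h1, h2⟩

theorem search_sound : ∀ (f : ℕ) (U V : List ℕ) (k : ℕ), search f U V k = true →
    ∀ B : Finset ℕ, B.card = k → (∀ b ∈ B, b ∈ V) →
      (∀ b ∈ B, ∀ b' ∈ B, b ≠ b' → cm b b' = false) →
      (∀ u ∈ U, ∃ b ∈ B, cm u b = true) → False := by
  intro f
  induction f with
  | zero => intro U V k h; simp [search] at h
  | succ f ih =>
    intro U V k h B hk hV hanti hdom
    cases U with
    | nil =>
      simp only [search, Bool.and_eq_true, Bool.not_eq_true', beq_eq_false_iff_ne,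
        List.isEmpty_iff] at h
      obtain ⟨h1, h2⟩ := h
      subst h2
      have : B = ∅ := by
        apply Finset.eq_empty_of_forall_notMem
        intro b hb
        simpa using hV b hb
      rw [this] at hk
      simp at hk
      exact h1 hk.symm
    | cons u U =>
      obtain ⟨b0, hb0, hub0⟩ := hdom u (by simp)
      have hkpos : k ≠ 0 := by
        rintro rfl
        rw [Finset.card_eq_zero] at hk
        simp [hk] at hb0
      have hkb : (k == 0) = false := by simpa using hkpos
      rw [search, hkb, Bool.false_or, List.all_eq_true] at h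
      obtain ⟨p, hp, hpB, hBp⟩ := splits_spec B (V.filter (fun b => cm u b)) V hV
        ⟨b0, List.mem_filter.2 ⟨hV b0 hb0, hub0⟩, hb0⟩
      have hs := h p hp
      refine ih _ _ _ hs (B.erase p.1) ?_ ?_ ?_ ?_
      · rw [Finset.card_erase_of_mem hpB, hk]
      · intro b hb
        rw [Finset.mem_erase] at hb
        refine List.mem_filter.2 ⟨hBp b hb.2, ?_⟩
        rw [hanti b hb.2 p.1 hpB hb.1]
        rfl
      · intro b hb b' hb' hne
        exact hanti b (Finset.mem_of_mem_erase hb) b' (Finset.mem_of_mem_erase hb') hne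
      · intro w hw
        rw [List.mem_filter] at hw
        obtain ⟨hw1, hw2⟩ := hw
        obtain ⟨b, hb, hwb⟩ := hdom w hw1
        refine ⟨b, Finset.mem_erase.2 ⟨?_, hb⟩, hwb⟩
        rintro rfl
        rw [hwb] at hw2
        simp at hw2


/-! ### The lattice with 52 elements -/

/-- product of four two-element chains and one four-element chain -/
abbrev T : Type := Fin 2 × Fin 2 × Fin 2 × Fin 2 × Fin 4

/-- the tuples `(a, b, c, d, e)` such that `e = 3` forces `c = d = 1` -/
def good (t : T) : Bool := !(t.2.2.2.2 == 3) || ((t.2.2.1 == 1) && (t.2.2.2.1 == 1))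

/-- the 52-element sublattice -/
def lat : Sublattice T where
  carrier := {t | good t = true}
  supClosed' := by
    have h : ∀ s t : T, good s = true → good t = true → good (s ⊔ t) = true := by
      decide +kernel
    intro s hs t ht
    exact h s t hs ht
  infClosed' := by
    have h : ∀ s t : T, good s = true → good t = true → good (s ⊓ t) = true := by
      decide +kernel
    intro s hs t ht
    exact h s t hs ht

/-- bitmask code of a tuple; the last entry is coded in unary -/
def code (t : T) : ℕ :=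
  t.1.val + 2 * t.2.1.val + 4 * t.2.2.1.val + 8 * t.2.2.2.1.val + 16 * (2 ^ t.2.2.2.2.val - 1)

theorem code_le : ∀ s t : T, s ≤ t ↔ Nat.land (code s) (code t) = code s := by
  decide +kernel

theorem code_inj : ∀ s t : T, code s = code t → s = t := by
  decide +kernel

/-- the element whose cutsets are considered -/
def x0 : T := (1, 1, 1, 1, 0)

/-- codes of the elements incomparable to `x0` -/
def inc : List ℕ := [126, 125, 124, 62, 61, 60, 59, 58, 57, 56, 55, 54, 53, 52, 51, 50, 49, 48,
  30, 29, 28, 27, 26, 25, 24, 23, 22, 21, 20, 19, 18, 17, 16]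

theorem inc_spec : ∀ t : T, good t = false ∨ x0 ≤ t ∨ t ≤ x0 ∨ code t ∈ inc := by
  decide +kernel

theorem inc_spec' : ∀ c ∈ inc, ∃ t : T, good t = true ∧ ¬ x0 ≤ t ∧ ¬ t ≤ x0 ∧ code t = c := by
  decide +kernel

set_option synthInstance.maxSize 2000

/-- nine maximal chains avoiding `x0`, given by the codes of their members -/
def chains : Fin 9 → List ℕ :=
  ![[0, 16, 48, 56, 60, 124, 126, 127], [0, 8, 24, 28, 30, 31, 63, 127],
    [0, 8, 12, 13, 29, 31, 63, 127], [0, 8, 10, 26, 58, 59, 63, 127],
    [0, 8, 10, 11, 27, 31, 63, 127], [0, 8, 9, 25, 57, 61, 125, 127],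
    [0, 4, 20, 52, 54, 62, 63, 127], [0, 4, 6, 22, 23, 31, 63, 127],
    [0, 4, 5, 21, 53, 55, 63, 127]]

/-- any element comparable to all members of one of the nine chains belongs to it -/
theorem chains_max : ∀ i : Fin 9, ∀ t : T, good t = false ∨ code t ∈ chains i ∨
    ∃ s : T, good s = true ∧ code s ∈ chains i ∧ ¬ s ≤ t ∧ ¬ t ≤ s := by
  decide +kernel

theorem chains_chain : ∀ i : Fin 9, ∀ s t : T, code s ∈ chains i → code t ∈ chains i →
    s ≤ t ∨ t ≤ s := by
  decide +kernel

theorem chains_x0 : ∀ i : Fin 9, code x0 ∉ chains i := by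
  decide +kernel

theorem chains_disj : ∀ i j : Fin 9, i ≠ j → ∀ c ∈ inc, c ∈ chains i → c ∉ chains j := by
  decide +kernel

/-- codes of the elements of a cutset for `x0` with nine elements -/
def cut : List ℕ := [60, 30, 62, 29, 61, 27, 59, 23, 55]

/-- codes of the elements that can be reached from the bottom without meeting the cutset -/
def reach : List ℕ := [0, 16, 48, 8, 24, 56, 4, 20, 52, 12, 28, 2, 18, 50, 10, 26, 58, 6, 22, 54,
  14, 1, 17, 49, 9, 25, 57, 5, 21, 53, 13, 3, 19, 51, 11, 7]

/-- an element outside `reach` that covers an element of `reach` lies in the cutset -/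
theorem reach_spec : ∀ s t : T, good s = false ∨ good t = false ∨ code s ∉ reach ∨
    code t ∈ reach ∨ t = x0 ∨ code t ∈ cut ∨ ¬ s ≤ t ∨
    ∃ r : T, good r = true ∧ s ≤ r ∧ r ≤ t ∧ r ≠ s ∧ r ≠ t := by
  decide +kernel

theorem search_run : search 20 inc inc 9 = true := by
  decide +kernel


theorem inc_nodup_check : ∀ c ∈ cut, ∃ t : T, good t = true ∧ code t = c := by
  decide +kernel

theorem cut_inc : ∀ t : T, code t ∉ cut ∨ (¬ x0 ≤ t ∧ ¬ t ≤ x0) := by
  decide +kernel

/-- the chosen element as a member of the lattice -/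
def xL : lat := ⟨x0, show good x0 = true by decide⟩

/-- the bottom -/
def botL : lat := ⟨(0, 0, 0, 0, 0), show good (0, 0, 0, 0, 0) = true by decide⟩

/-- the top -/
def topL : lat := ⟨(1, 1, 1, 1, 3), show good (1, 1, 1, 1, 3) = true by decide⟩

theorem bot_code : ∀ y : lat, code y.1 ∉ reach → ∃ s : lat, s ≠ y ∧ s ≤ y ∧
    ∀ C : Set lat, IsMaxChain (· ≤ ·) C → s ∈ C := by
  intro y hy
  refine ⟨botL, ?_, ?_, ?_⟩
  · rintro rfl
    exact hy (by decide)
  · have h : ∀ t : T, ((0, 0, 0, 0, 0) : T) ≤ t := by decide +kernel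
    exact h y.1
  · intro C hC
    have h : ∀ t : T, ((0, 0, 0, 0, 0) : T) ≤ t := by decide +kernel
    have hch : IsChain (· ≤ ·) (insert botL C) := by
      apply hC.1.insert
      intro b _ _
      exact Or.inl (h b.1)
    rw [hC.2 hch (Set.subset_insert _ _)]
    exact Set.mem_insert _ _

theorem top_mem (C : Set lat) (hC : IsMaxChain (· ≤ ·) C) :
    topL ∈ C := by
  have h : ∀ t : T, t ≤ ((1, 1, 1, 1, 3) : T) := by decide +kernel
  have hch : IsChain (· ≤ ·) (insert topL C) := by
    apply hC.1.insert
    intro b _ _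
    exact Or.inr (h b.1)
  rw [hC.2 hch (Set.subset_insert _ _)]
  exact Set.mem_insert _ _

/-- the nine-element cutset -/
def K0 : Set lat := {y | code y.1 ∈ cut}

theorem codeL_inj : Function.Injective (fun y : lat => code y.1) := by
  intro a b h
  exact Subtype.ext (code_inj _ _ h)

theorem K0_ncard : K0.ncard = 9 := by
  have h : (fun y : lat => code y.1) '' K0 = ↑(cut.toFinset) := by
    ext c
    simp only [Set.mem_image, Finset.mem_coe, List.mem_toFinset]
    constructor
    · rintro ⟨y, hy, rfl⟩
      exact hy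
    · intro hc
      obtain ⟨t, ht, htc⟩ := inc_nodup_check c hc
      exact ⟨⟨t, ht⟩, by show code t ∈ cut; rw [htc]; exact hc, htc⟩
  have h2 := Set.ncard_image_of_injective K0 codeL_inj
  rw [← h2, h, Set.ncard_coe_finset]
  decide

theorem K0_cutset : IsCutsetFor xL K0 := by
  refine ⟨?_, ?_⟩
  · intro y hy
    rcases cut_inc y.1 with h | h
    · exact absurd hy h
    · exact h
  · intro C hC
    by_contra hne
    rw [Set.not_nonempty_iff_eq_empty] at hne
    have hno : ∀ y ∈ C, y ≠ xL ∧ code y.1 ∉ cut := by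
      intro y hy
      refine ⟨?_, ?_⟩
      · rintro rfl
        have : xL ∈ insert xL K0 ∩ C := ⟨Set.mem_insert _ _, hy⟩
        rw [hne] at this
        exact this
      · intro hc
        have : y ∈ insert xL K0 ∩ C := ⟨Set.mem_insert_of_mem _ hc, hy⟩
        rw [hne] at this
        exact this
    have hfin : ({y ∈ C | code y.1 ∉ reach} : Set lat).Finite := Set.toFinite _
    have hnon : ({y ∈ C | code y.1 ∉ reach} : Set lat).Nonempty :=
      ⟨_, top_mem C hC, by decide⟩
    obtain ⟨z, hz⟩ := hfin.exists_minimal hnon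
    obtain ⟨b, hbz, hbz', hbC⟩ := bot_code z hz.1.2
    have hfin2 : ({y ∈ C | y ≤ z ∧ y ≠ z} : Set lat).Finite := Set.toFinite _
    have hnon2 : ({y ∈ C | y ≤ z ∧ y ≠ z} : Set lat).Nonempty :=
      ⟨b, hbC C hC, hbz', hbz⟩
    obtain ⟨s, hs⟩ := hfin2.exists_maximal hnon2
    have hsr : code s.1 ∈ reach := by
      by_contra hsr
      have := hz.2 ⟨hs.1.1, hsr⟩ hs.1.2.1
      exact hs.1.2.2 (le_antisymm hs.1.2.1 this)
    rcases reach_spec s.1 z.1 with h | h | h | h | h | h | h | h
    · exact absurd s.2 (by rw [show (s.1 ∈ lat) = (good s.1 = true) from rfl, h]; decide)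
    · exact absurd z.2 (by rw [show (z.1 ∈ lat) = (good z.1 = true) from rfl, h]; decide)
    · exact h hsr
    · exact hz.1.2 h
    · exact (hno z hz.1.1).1 (Subtype.ext h)
    · exact (hno z hz.1.1).2 h
    · exact h hs.1.2.1
    · obtain ⟨r, hr, hsr', hrz, hrs, hrz'⟩ := h
      have hrL : ∀ c ∈ C, c ≠ (⟨r, hr⟩ : lat) → (⟨r, hr⟩ : lat) ≤ c ∨ c ≤ (⟨r, hr⟩ : lat) := by
        intro c hc _
        rcases hC.1.total hc hz.1.1 with hcz | hzc
        · by_cases hcz' : c = z
          · left; rw [hcz']; exact hrz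
          · right
            rcases hC.1.total hc hs.1.1 with h1 | h1
            · exact le_trans h1 hsr'
            · have := hs.2 ⟨hc, hcz, hcz'⟩ h1
              exact le_trans this hsr'
        · left
          exact le_trans (show (⟨r, hr⟩ : lat) ≤ z from hrz) hzc
      have hch : IsChain (· ≤ ·) (insert (⟨r, hr⟩ : lat) C) := by
        apply hC.1.insert
        intro c hc hne'
        exact hrL c hc (Ne.symm hne')
      have hrC : (⟨r, hr⟩ : lat) ∈ C := by
        rw [hC.2 hch (Set.subset_insert _ _)]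
        exact Set.mem_insert _ _
      have h1 : (⟨r, hr⟩ : lat) ≤ s :=
        hs.2 ⟨hrC, hrz, fun h => hrz' (congrArg Subtype.val h)⟩ hsr'
      exact hrs (congrArg Subtype.val (le_antisymm h1 hsr'))

theorem chain_isMax (i : Fin 9) : IsMaxChain (· ≤ ·) ({y : lat | code y.1 ∈ chains i}) := by
  refine ⟨?_, ?_⟩
  · intro a ha b hb _
    exact chains_chain i a.1 b.1 ha hb
  · intro t ht hsub
    apply Set.Subset.antisymm hsub
    intro y hy
    rcases chains_max i y.1 with h | h | ⟨s, hs, hsi, h1, h2⟩
    · exact absurd y.2 (by rw [show (y.1 ∈ lat) = (good y.1 = true) from rfl, h]; decide)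
    · exact h
    · have hst : (⟨s, hs⟩ : lat) ∈ t := hsub hsi
      rcases ht.total hst hy with h3 | h3
      · exact absurd h3 h1
      · exact absurd h3 h2

theorem lower (K : Set lat) (hK : IsCutsetFor xL K) : 9 ≤ K.ncard := by
  have hex : ∀ i : Fin 9, ∃ y : lat, y ∈ K ∧ code y.1 ∈ chains i := by
    intro i
    obtain ⟨y, hy1, hy2⟩ := hK.2 _ (chain_isMax i)
    rcases hy1 with rfl | hy1
    · exact absurd hy2 (chains_x0 i)
    · exact ⟨y, hy1, hy2⟩
  choose k hkK hkc using hex
  have hinj : Function.Injective k := by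
    intro i j hij
    by_contra hne
    have hinc : code (k i).1 ∈ inc := by
      rcases inc_spec (k i).1 with h | h | h | h
      · exact absurd (k i).2 (by
          rw [show ((k i).1 ∈ lat) = (good (k i).1 = true) from rfl, h]; decide)
      · exact absurd h (hK.1 _ (hkK i)).1
      · exact absurd h (hK.1 _ (hkK i)).2
      · exact h
    exact chains_disj i j hne _ hinc (hkc i) (hij ▸ hkc j)
  have h1 : (Set.range k).ncard = 9 := by
    rw [← Set.image_univ, Set.ncard_image_of_injective _ hinj, Set.ncard_univ]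
    simp
  rw [← h1]
  apply Set.ncard_le_ncard _ (Set.toFinite _)
  rintro _ ⟨i, rfl⟩
  exact hkK i

theorem no_antichain (A : Set lat) (hA : IsMaxAntichain (· ≤ ·) A) (hx : xL ∈ A) :
    A.ncard ≠ 10 := by
  classical
  intro hcard
  have hfin : (A \ {xL}).Finite := Set.toFinite _
  set B : Finset ℕ := hfin.toFinset.image (fun y : lat => code y.1) with hB
  have hmemB : ∀ c, c ∈ B ↔ ∃ y ∈ A, y ≠ xL ∧ code y.1 = c := by
    intro c
    simp only [hB, Finset.mem_image, Set.Finite.mem_toFinset, Set.mem_sdiff,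
      Set.mem_singleton_iff]
    constructor
    · rintro ⟨y, ⟨h1, h2⟩, h3⟩
      exact ⟨y, h1, h2, h3⟩
    · rintro ⟨y, h1, h2, h3⟩
      exact ⟨y, ⟨h1, h2⟩, h3⟩
  have hBcard : B.card = 9 := by
    rw [hB, Finset.card_image_of_injective _ codeL_inj, ← Set.ncard_eq_toFinset_card _ hfin,
      Set.ncard_sdiff_singleton_of_mem hx, hcard]
  have hanti : ∀ a ∈ A, ∀ b ∈ A, a ≠ b → ¬ a ≤ b := fun a ha b hb hne => hA.1 ha hb hne
  have hcm : ∀ s t : T, cm (code s) (code t) = true ↔ (s ≤ t ∨ t ≤ s) := by
    intro s t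
    rw [code_le s t, code_le t s]
    unfold cm
    rw [Bool.or_eq_true, beq_iff_eq, beq_iff_eq]
    have : Nat.land (code t) (code s) = Nat.land (code s) (code t) := Nat.land_comm _ _
    rw [this]
  refine search_sound 20 inc inc 9 search_run B hBcard ?_ ?_ ?_
  · intro c hc
    obtain ⟨y, hyA, hyx, rfl⟩ := (hmemB c).1 hc
    rcases inc_spec y.1 with h | h | h | h
    · exact absurd y.2 (by rw [show (y.1 ∈ lat) = (good y.1 = true) from rfl, h]; decide)
    · exact absurd h (hanti xL hx y hyA (Ne.symm hyx))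
    · exact absurd h (hanti y hyA xL hx hyx)
    · exact h
  · intro c hc c' hc' hne
    obtain ⟨y, hyA, hyx, rfl⟩ := (hmemB c).1 hc
    obtain ⟨y', hyA', hyx', rfl⟩ := (hmemB c').1 hc'
    have hyy : y ≠ y' := fun h => hne (by rw [h])
    rw [← Bool.not_eq_true, hcm]
    rintro (h | h)
    · exact hanti y hyA y' hyA' hyy h
    · exact hanti y' hyA' y hyA (Ne.symm hyy) h
  · intro u hu
    obtain ⟨t, ht, h1, h2, rfl⟩ := inc_spec' u hu
    by_cases htA : (⟨t, ht⟩ : lat) ∈ A
    · refine ⟨code t, (hmemB _).2 ⟨⟨t, ht⟩, htA, ?_, rfl⟩, ?_⟩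
      · intro h
        exact h1 (le_of_eq (congrArg Subtype.val h).symm)
      · rw [hcm]; exact Or.inl le_rfl
    · have hnot : ¬ IsAntichain (· ≤ ·) (insert (⟨t, ht⟩ : lat) A) := by
        intro h
        have := hA.2 h (Set.subset_insert _ _)
        exact htA (this ▸ Set.mem_insert _ _)
      have : ∃ a ∈ A, (a ≤ (⟨t, ht⟩ : lat) ∨ (⟨t, ht⟩ : lat) ≤ a) := by
        by_contra hcon
        push Not at hcon
        apply hnot
        apply hA.1.insert
        · intro b hb _ h
          exact (hcon b hb).1 h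
        · intro b hb _ h
          exact (hcon b hb).2 h
      obtain ⟨a, haA, hat⟩ := this
      have hax : a ≠ xL := by
        rintro rfl
        rcases hat with h | h
        · exact h1 h
        · exact h2 h
      refine ⟨code a.1, (hmemB _).2 ⟨a, haA, hax, rfl⟩, ?_⟩
      rw [hcm]
      rcases hat with h | h
      · exact Or.inr h
      · exact Or.inl h

/-- There is a finite distributive lattice `L` (it has 52 elements), an element `x` of `L` and
a number `m` (it is 9) such that the minimum-sized cutsets for `x` have exactly `m` elements,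
and no maximal antichain of `L` containing `x` has exactly `m + 1` elements. -/
theorem result : ∃ (L : Type) (_ : DistribLattice L) (_ : Finite L) (x : L) (m : ℕ),
    IsLeast {k : ℕ | ∃ K : Set L, IsCutsetFor x K ∧ K.ncard = k} m ∧
    ¬ ∃ A : Set L, IsMaxAntichain (· ≤ ·) A ∧ x ∈ A ∧ A.ncard = m + 1 := by
  refine ⟨lat, inferInstance, inferInstance, xL, 9, ⟨⟨K0, K0_cutset, K0_ncard⟩, ?_⟩, ?_⟩
  · rintro k ⟨K, hK, rfl⟩
    exact lower K hK
  · rintro ⟨A, hA, hx, hcard⟩
    exact no_antichain A hA hx hcard

end Pool.Agent.Results.MP_d015b4_co.FiniteCounterexample
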